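import Pool.Agent.Lib.MP_072e06_pr.FinalA
import Pool.Agent.Lib.MP_072e06_pr.FinalB

/-!
# MP_072e06_pr, Q1: annealed heat kernel bounds for long-range percolation

Full answer of Q1: both (a) and (b) are true, and in (b) the limit is `0`, not only the liminf.
-/

open MeasureTheory ENNReal MP072e06

namespace Pool.Agent.Results.MP_072e06_pr.AnnealedHeatKernel

/-- (a) for `d < s < min (d+2) (2d)`: `E p_{2t}(0,0) ≤ C t^(-d/(s-d))` for all `t ≥ 1`;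
(b) for `d ≥ 2`, `s = d + 2`: `t^(d/2) E p_{2t}(0,0) → 0` as `t → ∞`. -/
theorem result :
    (∀ (d : ℕ) (s : ℝ), 1 ≤ d → (d : ℝ) < s → s < min ((d : ℝ) + 2) (2 * d) →
      ∃ C : ℝ, 0 < C ∧ ∀ t : ℕ, 1 ≤ t →
        ∫⁻ ω, heat (lrpGraph ω) (2 * t) (0 : V d) 0 ∂(LRP d s) ≤
          ENNReal.ofReal (C * (t : ℝ) ^ (-((d : ℝ) / (s - d))))) ∧
    (∀ d : ℕ, 2 ≤ d →
      Filter.Tendsto (fun t : ℕ => ENNReal.ofReal ((t : ℝ) ^ ((d : ℝ) / 2)) *
        ∫⁻ ω, heat (lrpGraph ω) (2 * t) (0 : V d) 0 ∂(LRP d (d + 2))) Filter.atTop (nhds 0)) := by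
  refine ⟨fun d s hd hs hs2 => ?_, fun d hd => ?_⟩
  · have : NeZero d := ⟨by omega⟩
    exact annealed_A d s hs (lt_of_lt_of_le hs2 (min_le_right _ _))
  · have : NeZero d := ⟨by omega⟩
    exact annealed_B d hd

end Pool.Agent.Results.MP_072e06_pr.AnnealedHeatKernel
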