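import Pool.Agent.Lib.MP_072e06_pr.FinalQ

/-!
# MP_072e06_pr, Q2(b): the quenched heat kernel at `s = d + 2`
-/

open MeasureTheory ENNReal MP072e06

namespace Pool.Agent.Results.MP_072e06_pr.QuenchedLiminf

/-- For `d ≥ 2` and `s = d + 2`, almost surely `liminf t^(d/2) p_{2t}(0,0) = 0`. -/
theorem result :
    ∀ d : ℕ, 2 ≤ d → ∀ᵐ ω ∂(LRP d (d + 2)),
      Filter.liminf (fun t : ℕ => ENNReal.ofReal ((t : ℝ) ^ ((d : ℝ) / 2)) *
        heat (lrpGraph ω) (2 * t) (0 : V d) 0) Filter.atTop = 0 := by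
  intro d hd
  have : NeZero d := ⟨by omega⟩
  exact quenched_B d hd

end Pool.Agent.Results.MP_072e06_pr.QuenchedLiminf
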